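import Pool.Graph.R_pool_sql_team_seeded_47a924f7.T6.H59.NN.Final

/-!
# Random nearest neighbour trees: a larger growth exponent and a polynomial tail
-/

set_option autoImplicit false

open MeasureTheory Filter Topology
open Pool.Agent.T6.H59.NN

namespace Pool.Agent.KS6_65.NNX

variable {d : ℕ}

/-- each good vertex has on average at least `w / 8` good children in the window -/
lemma many_children (hd : 2 ^ 20 ≤ d) {w : ℕ} (hw : w ≤ d) {j : ℕ} (hj : 0 < j)
    (hsm : rr d j ≤ 1 / 32) :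
    (w / 8 : ℝ) * (P d).real (GE d j) ≤
      ∑ t ∈ Finset.Ioc (4 ^ d * j) (2 ^ w * (4 ^ d * j)), (P d).real (GG d j t) := by
  have he : 0 ≤ (P d).real (GE d j) := measureReal_nonneg
  have h1 := harm_ge (a := 4 ^ d * j) (by positivity) w
  have h2 : ∀ t ∈ Finset.Ioc (4 ^ d * j) (2 ^ w * (4 ^ d * j)),
      1 / 4 * (1 / (t : ℝ)) * (P d).real (GE d j) ≤ (P d).real (GG d j t) := by
    intro t ht
    obtain ⟨ht1, ht2⟩ := Finset.mem_Ioc.mp ht
    refine one_step hd hj ht1 hsm (ht2.trans ?_)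
    rw [← mul_assoc]
    refine Nat.mul_le_mul_right _ ?_
    have h3 : (8 : ℕ) ^ d = 2 ^ d * 4 ^ d := by rw [← mul_pow]; norm_num
    rw [h3]
    exact Nat.mul_le_mul_right _ (Nat.pow_le_pow_right (by norm_num) hw)
  refine le_trans ?_ (Finset.sum_le_sum h2)
  rw [← Finset.sum_mul, ← Finset.mul_sum]
  refine mul_le_mul_of_nonneg_right ?_ he
  linarith

/-- multiplication -/
lemma aa_mul (hd : 2 ^ 20 ≤ d) {w : ℕ} (hw : w ≤ d) {j0 : ℕ} (hj0 : 0 < j0)
    (hsm : ∀ j ≥ j0, rr d j ≤ 1 / 32) (N : ℕ) :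
    (w / 8 : ℝ) * aa d j0 N ≤ aa d j0 (2 ^ w * 4 ^ d * N) := by
  unfold aa
  rw [Finset.mul_sum]
  have h1 : ∀ j ∈ Finset.Icc j0 N, (w / 8 : ℝ) * (P d).real (GE d j) ≤
      ∑ t ∈ Finset.Icc j0 (2 ^ w * 4 ^ d * N), (P d).real (GG d j t) := by
    intro j hj
    obtain ⟨hj1, hj2⟩ := Finset.mem_Icc.mp hj
    refine (many_children hd hw (hj0.trans_le hj1) (hsm j hj1)).trans ?_
    refine Finset.sum_le_sum_of_subset_of_nonneg ?_ fun v _ _ => measureReal_nonneg
    intro t ht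
    obtain ⟨ht1, ht2⟩ := Finset.mem_Ioc.mp ht
    have h2 : j ≤ 4 ^ d * j := Nat.le_mul_of_pos_left _ (by positivity)
    refine Finset.mem_Icc.mpr ⟨by omega, ht2.trans ?_⟩
    rw [← mul_assoc]
    exact Nat.mul_le_mul_left _ hj2
  refine (Finset.sum_le_sum h1).trans ?_
  rw [Finset.sum_comm]
  refine Finset.sum_le_sum fun t _ => ?_
  have hdis : Set.PairwiseDisjoint ((Finset.Icc j0 N : Finset ℕ) : Set ℕ)
      (fun j => GG d j t) := by
    intro i _ j _ hij
    rw [Function.onFun, Set.disjoint_left]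
    intro x hx1 hx2
    exact hij (hx1.2.unique hx2.2)
  rw [← measureReal_biUnion_finset hdis fun j _ => m_GG j t]
  refine measureReal_mono ?_
  intro x hx
  obtain ⟨j, -, hj⟩ := Set.mem_iUnion₂.mp hx
  exact hj.1

lemma aa_pow' (hd : 2 ^ 20 ≤ d) {w : ℕ} (hw : w ≤ d) {j0 : ℕ} (hj0 : 0 < j0)
    (hsm : ∀ j ≥ j0, rr d j ≤ 1 / 32) (N m : ℕ) :
    (w / 8 : ℝ) ^ m * aa d j0 N ≤ aa d j0 ((2 ^ w * 4 ^ d) ^ m * N) := by
  induction m with
  | zero => simp
  | succ m ih =>
    have h := aa_mul hd hw hj0 hsm ((2 ^ w * 4 ^ d) ^ m * N)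
    rw [← mul_assoc, ← pow_succ'] at h
    refine le_trans ?_ h
    rw [pow_succ', mul_assoc]
    exact mul_le_mul_of_nonneg_left ih (by positivity)

/-- a power lower bound for the expectation -/
theorem power_lower' (hd : 2 ^ 20 ≤ d) {w : ℕ} (hw8 : 8 < w) (hw : w ≤ d) :
    ∃ c > 0, ∀ n : ℕ, 1 ≤ n →
    c * (n : ℝ) ^ (Real.logb 2 (w / 8) / (w + 2 * d)) ≤ ∫ x, ((unc x n).card : ℝ) ∂(P d) := by
  have hd1 : 0 < d := lt_of_lt_of_le (by norm_num) hd
  obtain ⟨j0, hj0, hsm⟩ := exists_rr_le hd1 (c := 1 / 32) (by norm_num)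
  set ts : ℕ := max j0 (2 ^ d + 1) with hts
  have hts1 : j0 ≤ ts := le_max_left _ _
  have hts2 : 2 ^ d < ts := by
    have := le_max_right j0 (2 ^ d + 1)
    omega
  have hpos := base_pos hd hts2 (hsm ts hts1)
  have he0 : 0 < aa d j0 ts := by
    have h1 : 0 < (P d).real (GE d ts) :=
      ENNReal.toReal_pos hpos.ne' (measure_ne_top _ _)
    refine lt_of_lt_of_le h1 ?_
    unfold aa
    exact Finset.single_le_sum (f := fun j => (P d).real (GE d j))
      (fun _ _ => measureReal_nonneg) (Finset.mem_Icc.mpr ⟨hts1, le_rfl⟩)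
  set e0 := aa d j0 ts with he
  set K : ℕ := 2 ^ w * 4 ^ d with hK
  have hK1 : 1 < K := by
    have h1 : 1 ≤ 4 ^ d := Nat.one_le_pow _ _ (by norm_num)
    have h2 : 2 ^ 1 ≤ 2 ^ w := Nat.pow_le_pow_right (by norm_num) (by omega)
    nlinarith
  have hK1' : (1 : ℝ) < K := by exact_mod_cast hK1
  set T : ℕ := ts + 1 with hT
  have hT0 : (0 : ℝ) < T := by positivity
  set b : ℝ := (w / 8 : ℝ) with hb
  have hb1 : 1 < b := by
    have : (8 : ℝ) < w := by exact_mod_cast hw8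
    rw [hb, lt_div_iff₀ (by norm_num)]
    linarith
  have hwd : (0 : ℝ) < w + 2 * d := by positivity
  set γ : ℝ := Real.logb 2 b / (w + 2 * d) with hγ
  have hγ0 : 0 < γ := div_pos (Real.logb_pos (by norm_num) hb1) hwd
  have hKγ : (K : ℝ) ^ γ = b := by
    have e1 : (K : ℝ) = (2 : ℝ) ^ ((w : ℝ) + 2 * d) := by
      rw [hK]
      push_cast
      rw [show (4 : ℝ) = 2 ^ 2 by norm_num, ← pow_mul, ← pow_add, ← Real.rpow_natCast]
      congr 1
      push_cast
      ring
    rw [e1, ← Real.rpow_mul (by norm_num), hγ, mul_div_cancel₀ _ hwd.ne',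
      Real.rpow_logb (by norm_num) (by norm_num) (by linarith)]
  have hTγ : 0 < (T : ℝ) ^ γ := Real.rpow_pos_of_pos hT0 _
  refine ⟨min (e0 / b) 1 / (T : ℝ) ^ γ, by positivity, fun n hn => ?_⟩
  have hn0 : (0 : ℝ) < n := by exact_mod_cast hn
  rw [div_mul_eq_mul_div, div_le_iff₀ hTγ]
  rcases Nat.eq_zero_or_pos (n / T) with hq | hq
  · -- small `n`
    have h1 : n < T := by
      rcases Nat.div_eq_zero_iff.mp hq with h | h
      · omega
      · exact h
    have h2 : (n : ℝ) ^ γ ≤ (T : ℝ) ^ γ :=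
      Real.rpow_le_rpow hn0.le (by exact_mod_cast h1.le) hγ0.le
    have h3 : (1 : ℝ) ≤ ∫ x, ((unc x n).card : ℝ) ∂(P d) := by
      have h4 : ∫ _x : ℕ → Torus d, (1 : ℝ) ∂(P d) = 1 := by simp
      refine h4.symm.le.trans ?_
      refine integral_mono (integrable_const 1) (integrable_card n) fun x => ?_
      have h5 : 0 ∈ unc x n := mem_unc (by omega) (unc_zero x)
      have h6 : 1 ≤ (unc x n).card := Finset.card_pos.mpr ⟨0, h5⟩
      have h7 : (1 : ℝ) ≤ ((unc x n).card : ℝ) := Nat.one_le_cast.mpr h6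
      exact h7
    calc min (e0 / b) 1 * (n : ℝ) ^ γ ≤ 1 * (T : ℝ) ^ γ :=
          mul_le_mul (min_le_right _ _) h2 (by positivity) zero_le_one
      _ ≤ _ := mul_le_mul_of_nonneg_right h3 hTγ.le
  · set m : ℕ := Nat.log K (n / T) with hm
    have h1 : K ^ m ≤ n / T := Nat.pow_log_le_self K hq.ne'
    have h2 : n / T < K ^ (m + 1) := Nat.lt_pow_succ_log_self hK1 _
    have h3 : K ^ m * T ≤ n := (Nat.mul_le_mul_right _ h1).trans (Nat.div_mul_le_self _ _)
    have h4 : n < K ^ (m + 1) * T := by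
      rwa [Nat.div_lt_iff_lt_mul (by omega)] at h2
    have h5 : K ^ m * ts < n := by
      have h6 : 0 < K ^ m := by positivity
      rw [hT, mul_add, mul_one] at h3
      omega
    have h6 : (n : ℝ) ^ γ ≤ b ^ (m + 1) * (T : ℝ) ^ γ := by
      have h7 : (n : ℝ) ≤ (K : ℝ) ^ (m + 1) * T := by exact_mod_cast h4.le
      refine (Real.rpow_le_rpow hn0.le h7 hγ0.le).trans (le_of_eq ?_)
      rw [Real.mul_rpow (by positivity) hT0.le, ← Real.rpow_natCast, ← Real.rpow_mul (by positivity),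
        mul_comm ((m + 1 : ℕ) : ℝ) γ, Real.rpow_mul (by positivity), hKγ, Real.rpow_natCast]
    have h7 := (aa_pow' hd hw hj0 hsm ts m).trans (aa_le h5)
    have hb0 : b ≠ 0 := by linarith
    calc min (e0 / b) 1 * (n : ℝ) ^ γ ≤ (e0 / b) * (b ^ (m + 1) * (T : ℝ) ^ γ) :=
          mul_le_mul (min_le_left _ _) h6 (by positivity) (by positivity)
      _ = b ^ m * e0 * (T : ℝ) ^ γ := by
          rw [pow_succ]
          field_simp
      _ ≤ _ := mul_le_mul_of_nonneg_right h7 hTγ.le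

/-- a bound for the expectation from a bound in probability -/
lemma exp_le (n : ℕ) {B : ℝ} :
    ∫ x, ((unc x n).card : ℝ) ∂(P d) ≤
      B * (P d).real {x : ℕ → Torus d | ((unc x n).card : ℝ) ≤ B} +
        (1 - (P d).real {x : ℕ → Torus d | ((unc x n).card : ℝ) ≤ B}) * n := by
  set A : Set (ℕ → Torus d) := {x | ((unc x n).card : ℝ) ≤ B} with hA
  have hAm : MeasurableSet A := measurableSet_le (measurable_card n) measurable_const
  have h1 : ∀ x : ℕ → Torus d, ((unc x n).card : ℝ) ≤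
      Set.indicator A (fun _ => B) x + Set.indicator Aᶜ (fun _ => (n : ℝ)) x := by
    intro x
    by_cases hx : x ∈ A
    · rw [Set.indicator_of_mem hx, Set.indicator_of_notMem (by simpa using hx), add_zero]
      exact hx
    · rw [Set.indicator_of_notMem hx, Set.indicator_of_mem (by simpa using hx), zero_add]
      have h2 : (unc x n).card ≤ n := by
        refine (Finset.card_le_card (t := Finset.range n) ?_).trans (by simp)
        intro v hv
        exact Finset.mem_range.mpr (mem_unc_iff.mp hv).1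
      exact_mod_cast h2
  have h3 : Integrable (fun x : ℕ → Torus d => Set.indicator A (fun _ => B) x +
      Set.indicator Aᶜ (fun _ => (n : ℝ)) x) (P d) :=
    ((integrable_const B).indicator hAm).add ((integrable_const (n : ℝ)).indicator hAm.compl)
  refine (integral_mono (integrable_card n) h3 h1).trans (le_of_eq ?_)
  rw [integral_add ((integrable_const B).indicator hAm)
    ((integrable_const (n : ℝ)).indicator hAm.compl),
    integral_indicator_const _ hAm, integral_indicator_const _ hAm.compl, smul_eq_mul, smul_eq_mul,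
    probReal_compl_eq_one_sub hAm]
  ring

/-- the polynomial tail -/
theorem tail (hd : 2 ^ 20 ≤ d) {w : ℕ} (hw8 : 8 < w) (hw : w ≤ d) {δ : ℝ}
    (hδ : δ < Real.logb 2 (w / 8) / (w + 2 * d)) :
    ∀ᶠ n : ℕ in atTop,
      (P d).real {x : ℕ → Torus d | ((unc x n).card : ℝ) ≤ (n : ℝ) ^ δ} ≤
        1 - (n : ℝ) ^ δ / n := by
  obtain ⟨c, hc, hlow⟩ := power_lower' hd hw8 hw
  set γ := Real.logb 2 (w / 8) / (w + 2 * d) with hγ
  have h1 : Tendsto (fun n : ℕ => c * (n : ℝ) ^ (γ - δ)) atTop atTop :=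
    ((tendsto_rpow_atTop (by linarith)).comp tendsto_natCast_atTop_atTop).const_mul_atTop hc
  filter_upwards [h1.eventually_ge_atTop 2, eventually_ge_atTop 1] with n h2 h3
  have hn1 : (1 : ℝ) ≤ n := by exact_mod_cast h3
  have hn0 : (0 : ℝ) < n := by linarith
  have hp : 0 < (n : ℝ) ^ δ := Real.rpow_pos_of_pos hn0 _
  have h4 : 2 * (n : ℝ) ^ δ ≤ c * (n : ℝ) ^ γ := by
    have e : (n : ℝ) ^ γ = (n : ℝ) ^ (γ - δ) * (n : ℝ) ^ δ := by
      rw [← Real.rpow_add hn0]; congr 1; ring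
    rw [e, ← mul_assoc]
    exact mul_le_mul_of_nonneg_right h2 hp.le
  have h5 := hlow n h3
  have h6 := exp_le (d := d) n (B := (n : ℝ) ^ δ)
  set q := (P d).real {x : ℕ → Torus d | ((unc x n).card : ℝ) ≤ (n : ℝ) ^ δ} with hq
  have hq1 : q ≤ 1 := measureReal_le_one
  have h7 : (n : ℝ) ^ δ * q ≤ (n : ℝ) ^ δ := by nlinarith
  have h8 : (n : ℝ) ^ δ ≤ (1 - q) * n := by linarith
  have h9 : (n : ℝ) ^ δ / n ≤ 1 - q := by
    rw [div_le_iff₀ hn0]; exact h8
  linarith

end Pool.Agent.KS6_65.NNX
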